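import Pool.Agent.Q113.XU.Stm

/-!
# Project XU, jobs RMN and RLM: minimisers of the restricted class
-/

set_option autoImplicit false

namespace Pool.Agent.Q121.XU

open Finset Pool.Agent.Q54.EM Pool.Agent.Q113.XU

lemma cont_dS {ι : Type} [Fintype ι] (k : ℕ) :
    Continuous fun z : (ι → ℝ) × (ι → ℝ) => dS k z.1 z.2 := by
  unfold dS
  refine continuous_finsetSum _ fun i _ => ?_
  have h1 : Continuous fun z : (ι → ℝ) × (ι → ℝ) => z.1 i := by fun_prop
  have h2 : Continuous fun z : (ι → ℝ) × (ι → ℝ) => z.2 i := by fun_prop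
  exact h1.mul (h2.min (continuous_const.sub h2))

lemma cont_dC {ι : Type} [Fintype ι] :
    Continuous fun z : (ι → ℝ) × (ι → ℝ) => dC z.1 z.2 := by
  unfold dC
  refine continuous_finsetSum _ fun i _ => ?_
  have h1 : Continuous fun z : (ι → ℝ) × (ι → ℝ) => z.1 i := by fun_prop
  have h2 : Continuous fun z : (ι → ℝ) × (ι → ℝ) => z.2 i := by fun_prop
  exact h1.mul (h2.min (h2.sub continuous_const).abs)

/-- **RMN**. -/
theorem t_RMN (hT : S_TUP) : S_RMN := by
  intro ι _ k r γ o t p0 x0 h0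
  obtain ⟨K, hKd⟩ : ∃ K : Set ((ι → ℝ) × (ι → ℝ)), K = {z | Rc k r γ o t z.1 z.2} := ⟨_, rfl⟩
  have hmem : ∀ z, z ∈ K ↔ Rc k r γ o t z.1 z.2 := by intro z; rw [hKd]; rfl
  have hcl : IsClosed K := by
    have e : K = {z | ((∀ i, 0 ≤ z.1 i) ∧ (∑ i, z.1 i = 1) ∧ (∀ i, 0 ≤ z.2 i) ∧
        (∀ i, z.2 i ≤ (k : ℝ)) ∧ z.2 o = 0 ∧ z.2 t = (k : ℝ) ∧ ∑ i, z.1 i * z.2 i = r) ∧
        γ ≤ dS k z.1 z.2 ∧ γ ≤ dC z.1 z.2} := by
      ext z
      rw [hmem]
      constructor
      · rintro ⟨h, h', h''⟩; exact ⟨⟨h.p0, h.p1, h.x0, h.xk, h.xo, h.xt, h.m⟩, h', h''⟩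
      · rintro ⟨⟨h1, h2, h3, h4, h5, h6, h7⟩, h', h''⟩
        exact ⟨Feas.mk h1 h2 h3 h4 h5 h6 h7, h', h''⟩
    rw [e]
    simp only [Set.ofPred_and, Set.ofPred_forall]
    refine IsClosed.inter ?_ (IsClosed.inter (isClosed_le continuous_const (cont_dS k))
      (isClosed_le continuous_const cont_dC))
    refine IsClosed.inter (isClosed_iInter fun i => isClosed_le continuous_const (by fun_prop)) ?_
    refine IsClosed.inter (isClosed_eq (by fun_prop) continuous_const) ?_
    refine IsClosed.inter (isClosed_iInter fun i => isClosed_le continuous_const (by fun_prop)) ?_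
    refine IsClosed.inter (isClosed_iInter fun i => isClosed_le (by fun_prop) continuous_const) ?_
    refine IsClosed.inter (isClosed_eq (by fun_prop) continuous_const) ?_
    refine IsClosed.inter (isClosed_eq (by fun_prop) continuous_const) ?_
    exact isClosed_eq (by fun_prop) continuous_const
  have hK : IsCompact K := by
    refine IsCompact.of_isClosed_subset
      (isCompact_Icc : IsCompact (Set.Icc ((fun _ => 0, fun _ => 0) : (ι → ℝ) × (ι → ℝ))
        ((fun _ => 1, fun _ => (k : ℝ)) : (ι → ℝ) × (ι → ℝ)))) hcl ?_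
    intro z hz
    rw [hmem] at hz
    replace hz := hz.1
    refine ⟨⟨fun i => hz.p0 i, fun i => hz.x0 i⟩, ⟨fun i => ?_, fun i => hz.xk i⟩⟩
    have := Finset.single_le_sum (f := z.1) (fun j _ => hz.p0 j) (Finset.mem_univ i)
    rw [hz.p1] at this
    exact this
  have hne : K.Nonempty := ⟨(p0, x0), (hmem _).mpr h0⟩
  have hF : LowerSemicontinuousOn (fun z : (ι → ℝ) × (ι → ℝ) => PR z.1 z.2 k k) K := by
    have e : (fun z : (ι → ℝ) × (ι → ℝ) => PR z.1 z.2 k k) = fun z => ∑ v : Fin k → ι,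
        (∏ i, z.1 (v i)) * (if ∑ i, z.2 (v i) < (k : ℝ) then 1 else 0) := by
      funext z
      exact hT ι z.1 z.2 k _
    rw [e]
    refine lowerSemicontinuousOn_sum fun v _ => ?_
    intro z hz y hy
    rw [hmem] at hz
    by_cases h : ∑ i, z.2 (v i) < (k : ℝ)
    · simp only [if_pos h, mul_one] at hy
      have hc1 : Continuous fun z : (ι → ℝ) × (ι → ℝ) => ∏ i, z.1 (v i) := by fun_prop
      have hc2 : Continuous fun z : (ι → ℝ) × (ι → ℝ) => ∑ i, z.2 (v i) := by fun_prop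
      have h1 := (hc1.tendsto z).eventually (lt_mem_nhds hy)
      have h2 := (hc2.tendsto z).eventually (gt_mem_nhds h)
      refine nhdsWithin_le_nhds ?_
      filter_upwards [h1, h2] with w hw1 hw2
      rw [if_pos hw2, mul_one]
      exact hw1
    · simp only [if_neg h, mul_zero] at hy
      filter_upwards [self_mem_nhdsWithin] with w hw
      rw [hmem] at hw
      refine lt_of_lt_of_le hy (mul_nonneg (Finset.prod_nonneg fun i _ => hw.1.p0 _) ?_)
      split_ifs <;> norm_num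
  obtain ⟨z, hz, hmin⟩ := hF.exists_isMinOn hne hK
  exact ⟨z.1, z.2, (hmem z).mp hz, hmin ((hmem (p0, x0)).mpr h0),
    fun p' x' h' => hmin ((hmem (p', x')).mpr h')⟩

/-- **RLM**. -/
theorem t_RLM : S_RLM := by
  intro ι _ k r γ o t p x hF hS hC hmin
  refine ⟨hF, ?_⟩
  have hopen : IsOpen {z : (ι → ℝ) × (ι → ℝ) | γ < dS k z.1 z.2 ∧ γ < dC z.1 z.2} := by
    rw [Set.ofPred_and]
    exact (isOpen_lt continuous_const (cont_dS k)).inter (isOpen_lt continuous_const cont_dC)
  obtain ⟨ε, hε, hball⟩ := Metric.isOpen_iff.1 hopen (p, x) ⟨hS, hC⟩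
  refine ⟨ε / 2, by positivity, fun p' x' hF' hp hx => ?_⟩
  have hz : (p', x') ∈ Metric.ball (p, x) ε := by
    rw [Metric.mem_ball, Prod.dist_eq]
    refine max_lt ?_ ?_
    · refine lt_of_le_of_lt ((dist_pi_le_iff (by positivity)).2 fun i => ?_) (by linarith : ε / 2 < ε)
      rw [Real.dist_eq]
      exact hp i
    · refine lt_of_le_of_lt ((dist_pi_le_iff (by positivity)).2 fun i => ?_) (by linarith : ε / 2 < ε)
      rw [Real.dist_eq]
      exact hx i
  obtain ⟨h1, h2⟩ := hball hz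
  exact hmin p' x' ⟨hF', h1.le, h2.le⟩

end Pool.Agent.Q121.XU
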