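import Pool.Agent.Q113.XU.Stm
import Pool.Agent.Q75.EM.MB

/-!
# Project XU, jobs STRL and MBL: strictness and the two bounds for a local minimiser
-/

set_option autoImplicit false

namespace Pool.Agent.Q121.XU

open Finset Pool.Agent.Q54.EM Pool.Agent.Q113.XU

/-- **STRL**. -/
theorem t_STRL (hM : S_MXT) (hP : S_PSP) : S_STRL := by
  classical
  intro ι _ k r o t p x hk hr ⟨hF, ρ0, hρ0, hloc⟩
  have hk1 : (1 : ℝ) ≤ k := by exact_mod_cast hk
  obtain ⟨N, hN⟩ : ∃ N : ℝ, N = (Fintype.card ι : ℝ) := ⟨_, rfl⟩
  have hN0 : 0 ≤ N := by rw [hN]; positivity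
  have hkr : 0 < (k : ℝ) - r := by linarith
  obtain ⟨C, hC⟩ : ∃ C : ℝ, C = (N * k + 1) / (k - r) := ⟨_, rfl⟩
  have hC0 : 0 ≤ C := by rw [hC]; positivity
  obtain ⟨ρ, hρ⟩ : ∃ ρ : ℝ, ρ = ρ0 / (1 + 2 * C) := ⟨_, rfl⟩
  have hρpos : 0 < ρ := by rw [hρ]; positivity
  have hρe : ρ * (1 + 2 * C) = ρ0 := by rw [hρ]; field_simp
  refine ⟨ρ, hρpos, fun p' x' hp0 hp1 hx0 hxk hxo hxt hmu hcp hcx => ?_⟩
  have hpos := hP ι p' x' k k hk le_rfl hp0 hp1 hx0 (by linarith)
  obtain ⟨r', hr'⟩ : ∃ r', r' = mu p' x' := ⟨_, rfl⟩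
  rw [← hr'] at hmu
  have hden : 0 < (k : ℝ) - r' := by linarith
  obtain ⟨s, hs⟩ : ∃ s, s = (r - r') / (k - r') := ⟨_, rfl⟩
  have hs0 : 0 < s := by rw [hs]; exact div_pos (by linarith) hden
  have hs1 : s < 1 := by rw [hs, div_lt_one hden]; linarith
  have hsm : s * (k - r') = r - r' := by rw [hs]; field_simp
  -- the size of `s`
  have hdiff : r - r' ≤ (N * k + 1) * ρ := by
    have e1 : r - r' = ∑ i, (p i * x i - p' i * x' i) := by
      rw [Finset.sum_sub_distrib, hr', ← hF.m]
      rfl
    have e2 : ∑ i, (p i * x i - p' i * x' i) ≤ ∑ i, (ρ * k + p' i * ρ) := by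
      refine Finset.sum_le_sum fun i _ => ?_
      have h1 := abs_le.1 (hcp i)
      have h2 := abs_le.1 (hcx i)
      have h3 : (p i - p' i) * x i ≤ ρ * k := by
        calc (p i - p' i) * x i ≤ ρ * x i := mul_le_mul_of_nonneg_right (by linarith) (hF.x0 i)
          _ ≤ ρ * k := mul_le_mul_of_nonneg_left (hF.xk i) hρpos.le
      have h4 : p' i * (x i - x' i) ≤ p' i * ρ := mul_le_mul_of_nonneg_left (by linarith) (hp0 i)
      nlinarith
    have e3 : ∑ i, (ρ * k + p' i * ρ) = (N * k + 1) * ρ := by
      rw [Finset.sum_add_distrib, ← Finset.sum_mul, ← Finset.sum_mul, hp1, Finset.sum_const, Finset.card_univ,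
        nsmul_eq_mul, hN]
      ring
    rw [e1]
    exact e2.trans (le_of_eq e3)
  have hsC : s ≤ C * ρ := by
    have h1 : s * (k - r) ≤ (N * k + 1) * ρ := by nlinarith
    rw [hC, div_mul_eq_mul_div, le_div_iff₀ hkr]
    exact h1
  have hle1 : ∀ i, p' i ≤ 1 := fun i => by
    rw [← hp1]
    exact Finset.single_le_sum (f := p') (fun j _ => hp0 j) (Finset.mem_univ i)
  have hfe : Feas k r o t (fun i => (1 - s) * p' i + if i = t then s else 0) x' :=
  { p0 := by
      intro i
      have h1 : 0 ≤ (1 - s) * p' i := mul_nonneg (by linarith) (hp0 i)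
      have h2 : (0 : ℝ) ≤ if i = t then s else 0 := by split_ifs <;> linarith
      exact add_nonneg h1 h2
    p1 := by
      rw [Finset.sum_add_distrib, ← Finset.mul_sum, hp1, Finset.sum_ite_eq' Finset.univ t]
      simp
    x0 := hx0
    xk := hxk
    xo := hxo
    xt := hxt
    m := by
      unfold mu
      simp only [add_mul, Finset.sum_add_distrib]
      have e1 : ∑ i, (1 - s) * p' i * x' i = (1 - s) * r' := by
        rw [hr']
        unfold mu
        rw [Finset.mul_sum]
        exact Finset.sum_congr rfl fun i _ => by ring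
      have e2 : ∑ i, (if i = t then s else 0) * x' i = s * k := by
        simp only [ite_mul, zero_mul]
        rw [Finset.sum_ite_eq' Finset.univ t]
        simp [hxt]
      rw [e1, e2]
      linarith }
  have h1 := hloc _ _ hfe (fun i => ?_) (fun i => (hcx i).trans ?_)
  · rw [hM ι p' x' k t s k hx0 hxt] at h1
    have h2 : (1 - s) ^ k < 1 := pow_lt_one₀ (by linarith) (by linarith) (by omega)
    nlinarith
  · have h2 := abs_le.1 (hcp i)
    have h3 : 0 ≤ s * p' i := mul_nonneg hs0.le (hp0 i)
    have h4 : s * p' i ≤ s := by nlinarith [hle1 i]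
    have h5 : (0 : ℝ) ≤ if i = t then s else 0 := by split_ifs <;> linarith
    have h6 : (if i = t then s else 0 : ℝ) ≤ s := by split_ifs <;> linarith
    rw [abs_le]
    constructor <;> nlinarith
  · nlinarith

/-- **MBL**. -/
theorem t_MBL (hT : S_TUP) : S_STRL → S_MBL := by
  intro hS ι _ k r o t p x hk hr hL
  obtain ⟨ρ, hρ, hstr⟩ := hS ι k r o t p x hk hr hL
  have hF := hL.1
  have hk1 : (1 : ℝ) ≤ k := by exact_mod_cast hk
  have hk0 : (0 : ℝ) < k := by linarith
  constructor
  · by_contra hcon
    rw [not_le] at hcon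
    obtain ⟨d0, hd00, hd01, hdx0⟩ := Pool.Agent.Q75.EM.exists_small (fun i => 0 < x i) x
      (fun i hi => hi)
    obtain ⟨d, hd⟩ : ∃ d : ℝ, d = min d0 (ρ / k) := ⟨_, rfl⟩
    have hd0 : 0 < d := by rw [hd]; exact lt_min hd00 (by positivity)
    have hdd : d ≤ d0 := by rw [hd]; exact min_le_left _ _
    have hd1 : d ≤ 1 := hdd.trans hd01
    have hdx : ∀ i, 0 < x i → d ≤ x i := fun i hi => hdd.trans (hdx0 i hi)
    have hdk : d * k ≤ ρ := by
      have : d ≤ ρ / k := by rw [hd]; exact min_le_right _ _
      rwa [le_div_iff₀ hk0] at this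
    set x' : ι → ℝ := fun i => if 0 < x i then min (k : ℝ) (x i + d * (x i - 1)) else 0 with hx'
    have hpos : ∀ i, 0 < x i → x' i = min (k : ℝ) (x i + d * (x i - 1)) := fun i hi => by
      simp only [hx', if_pos hi]
    have hneg : ∀ i, ¬ 0 < x i → x' i = 0 := fun i hi => by simp only [hx', if_neg hi]
    have h0 : ∀ i, 0 ≤ x' i := by
      intro i
      by_cases hi : 0 < x i
      · rw [hpos i hi]
        refine le_min (by linarith) ?_
        have := hdx i hi
        nlinarith
      · rw [hneg i hi]
    have hle : ∀ i, x' i ≤ k := by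
      intro i
      by_cases hi : 0 < x i
      · rw [hpos i hi]; exact min_le_left _ _
      · rw [hneg i hi]; linarith
    have ho : x' o = 0 := hneg o (by rw [hF.xo]; exact lt_irrefl _)
    have ht : x' t = k := by
      rw [hpos t (by rw [hF.xt]; linarith), hF.xt]
      refine min_eq_left ?_
      nlinarith
    have hclose : ∀ i, |x' i - x i| ≤ ρ := by
      intro i
      by_cases hi : 0 < x i
      · have h1 := hF.xk i
        have h2 : |x i - 1| ≤ k := by rw [abs_le]; constructor <;> linarith
        have h3 : |d * (x i - 1)| ≤ ρ := by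
          rw [abs_mul, abs_of_pos hd0]
          exact (mul_le_mul_of_nonneg_left h2 hd0.le).trans hdk
        have h4 := abs_le.1 h3
        rw [hpos i hi, abs_le]
        constructor
        · have : x i - ρ ≤ min (k : ℝ) (x i + d * (x i - 1)) := le_min (by linarith) (by linarith)
          linarith
        · linarith [min_le_right (k : ℝ) (x i + d * (x i - 1))]
      · have hxi : x i = 0 := le_antisymm (not_lt.1 hi) (hF.x0 i)
        rw [hneg i hi, hxi]
        simp [hρ.le]
    have hmu : mu p x' < r := by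
      have e1 : mu p x' ≤ ∑ i, (p i * x i + d * (p i * x i) - d * (if 0 < x i then p i else 0)) := by
        unfold mu
        refine Finset.sum_le_sum fun i _ => ?_
        by_cases hi : 0 < x i
        · rw [hpos i hi, if_pos hi]
          have := mul_le_mul_of_nonneg_left (min_le_right (k : ℝ) (x i + d * (x i - 1))) (hF.p0 i)
          refine this.trans (le_of_eq ?_)
          ring
        · have hxi : x i = 0 := le_antisymm (not_lt.1 hi) (hF.x0 i)
          rw [hneg i hi, if_neg hi, hxi]
          simp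
      have e2 : ∑ i, (p i * x i + d * (p i * x i) - d * (if 0 < x i then p i else 0)) =
          r + d * (r - ∑ i, (if 0 < x i then p i else 0)) := by
        rw [Finset.sum_sub_distrib, Finset.sum_add_distrib, ← Finset.mul_sum, ← Finset.mul_sum]
        have : ∑ i, p i * x i = r := hF.m
        rw [this]
        ring
      rw [e2] at e1
      have : d * (r - ∑ i, (if 0 < x i then p i else 0)) < 0 :=
        mul_neg_of_pos_of_neg hd0 (by linarith)
      linarith
    have hlt := hstr p x' hF.p0 hF.p1 h0 hle ho ht hmu (fun i => by simp [hρ.le]) hclose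
    refine absurd (Pool.Agent.Q75.EM.pr_le hT hF.p0 ?_) (not_le.2 hlt)
    intro v hv
    by_cases hc : ∃ i, x' (v i) = k
    · obtain ⟨i, hi⟩ := hc
      rw [← hi]
      exact Finset.single_le_sum (f := fun i => x' (v i)) (fun j _ => h0 (v j)) (mem_univ i)
    · push Not at hc
      have e1 : ∀ i, x (v i) + d * (x (v i) - 1) ≤ x' (v i) := by
        intro i
        by_cases hi : 0 < x (v i)
        · have h2 := hc i
          rw [hpos _ hi] at h2 ⊢
          rcases le_total (k : ℝ) (x (v i) + d * (x (v i) - 1)) with h3 | h3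
          · exact absurd (min_eq_left h3) h2
          · rw [min_eq_right h3]
        · have hxi : x (v i) = 0 := le_antisymm (not_lt.1 hi) (hF.x0 _)
          rw [hneg _ hi, hxi]
          linarith
      have e2 : ∑ i, (x (v i) + d * (x (v i) - 1)) ≤ ∑ i, x' (v i) :=
        Finset.sum_le_sum fun i _ => e1 i
      refine le_trans ?_ e2
      rw [Finset.sum_add_distrib, ← Finset.mul_sum, Finset.sum_sub_distrib]
      simp only [Finset.sum_const, Finset.card_univ, Fintype.card_fin, nsmul_eq_mul, mul_one]
      nlinarith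
  · by_contra hcon
    rw [not_le] at hcon
    obtain ⟨d0, hd00, hd01, hdx0⟩ := Pool.Agent.Q75.EM.exists_small (fun i => (k : ℝ) / 2 < x i)
      (fun i => (2 * x i - k) / k ^ 2) (fun i hi => by
        have : 0 < 2 * x i - k := by linarith
        positivity)
    obtain ⟨d, hd⟩ : ∃ d : ℝ, d = min d0 (ρ / k) := ⟨_, rfl⟩
    have hd0 : 0 < d := by rw [hd]; exact lt_min hd00 (by positivity)
    have hdd : d ≤ d0 := by rw [hd]; exact min_le_left _ _
    have hd1 : d ≤ 1 := hdd.trans hd01
    have hdk : d * k ≤ ρ := by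
      have : d ≤ ρ / k := by rw [hd]; exact min_le_right _ _
      rwa [le_div_iff₀ hk0] at this
    have hdx' : ∀ i, (k : ℝ) / 2 < x i → d * k ^ 2 ≤ 2 * x i - k := by
      intro i hi
      have := hdd.trans (hdx0 i hi)
      rwa [le_div_iff₀ (by positivity)] at this
    set x' : ι → ℝ := fun i => if (k : ℝ) / 2 < x i then x i - d * (k - x i) else (1 + d) * x i
      with hx'
    have hbig : ∀ i, (k : ℝ) / 2 < x i → x' i = x i - d * (k - x i) := fun i hi => by
      simp only [hx', if_pos hi]
    have hsm : ∀ i, ¬ (k : ℝ) / 2 < x i → x' i = (1 + d) * x i := fun i hi => by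
      simp only [hx', if_neg hi]
    have h0 : ∀ i, 0 ≤ x' i := by
      intro i
      have := hF.x0 i
      have := hF.xk i
      by_cases hi : (k : ℝ) / 2 < x i
      · rw [hbig i hi]
        nlinarith
      · rw [hsm i hi]
        positivity
    have hle : ∀ i, x' i ≤ k := by
      intro i
      have h1 := hF.x0 i
      have h2 := hF.xk i
      by_cases hi : (k : ℝ) / 2 < x i
      · rw [hbig i hi]
        nlinarith
      · rw [hsm i hi]
        rw [not_lt] at hi
        nlinarith
    have hclose : ∀ i, |x' i - x i| ≤ ρ := by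
      intro i
      have h1 := hF.x0 i
      have h2 := hF.xk i
      have h3 : d * x i ≤ d * k := mul_le_mul_of_nonneg_left h2 hd0.le
      have h4 : 0 ≤ d * x i := mul_nonneg hd0.le h1
      by_cases hi : (k : ℝ) / 2 < x i
      · rw [hbig i hi, abs_le]
        constructor <;> nlinarith
      · rw [hsm i hi, abs_le]
        constructor <;> nlinarith
    have ho : x' o = 0 := by
      rw [hsm o (by rw [hF.xo]; intro h; linarith), hF.xo, mul_zero]
    have ht : x' t = k := by
      rw [hbig t (by rw [hF.xt]; linarith), hF.xt]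
      ring
    have hmu : mu p x' < r := by
      have e1 : mu p x' =
          ∑ i, ((1 + d) * (p i * x i) - d * k * (if (k : ℝ) / 2 < x i then p i else 0)) := by
        unfold mu
        refine Finset.sum_congr rfl fun i _ => ?_
        by_cases hi : (k : ℝ) / 2 < x i
        · rw [hbig i hi, if_pos hi]
          ring
        · rw [hsm i hi, if_neg hi]
          ring
      rw [e1, Finset.sum_sub_distrib, ← Finset.mul_sum, ← Finset.mul_sum]
      have : ∑ i, p i * x i = r := hF.m
      rw [this]
      have := mul_pos hd0 (sub_pos.2 hcon)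
      nlinarith
    have hlt := hstr p x' hF.p0 hF.p1 h0 hle ho ht hmu (fun i => by simp [hρ.le]) hclose
    refine absurd (Pool.Agent.Q75.EM.pr_le hT hF.p0 ?_) (not_le.2 hlt)
    intro v hv
    classical
    set J : Finset (Fin k) := univ.filter fun i => (k : ℝ) / 2 < x (v i) with hJ
    have e1 : ∑ i, x' (v i) = (1 + d) * ∑ i, x (v i) - d * k * J.card := by
      have e2 : ∀ i : Fin k, x' (v i) =
          (1 + d) * x (v i) - d * k * (if (k : ℝ) / 2 < x (v i) then 1 else 0) := by
        intro i
        by_cases hi : (k : ℝ) / 2 < x (v i)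
        · rw [hbig _ hi, if_pos hi]
          ring
        · rw [hsm _ hi, if_neg hi]
          ring
      rw [Finset.sum_congr rfl fun i _ => e2 i, Finset.sum_sub_distrib, ← Finset.mul_sum,
        ← Finset.mul_sum]
      congr 2
      rw [Finset.sum_boole]
    rw [e1]
    rcases Nat.lt_or_ge J.card 2 with hc | hc
    · have hc1 : (J.card : ℝ) ≤ 1 := by exact_mod_cast Nat.lt_succ_iff.1 hc
      have : d * k * J.card ≤ d * k * 1 := mul_le_mul_of_nonneg_left hc1 (by positivity)
      nlinarith
    · obtain ⟨a, ha, b, hb, hab⟩ := Finset.one_lt_card.1 (show 1 < J.card by omega)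
      have ha' : (k : ℝ) / 2 < x (v a) := (Finset.mem_filter.1 ha).2
      have hb' : (k : ℝ) / 2 < x (v b) := (Finset.mem_filter.1 hb).2
      have h2 : x (v a) + x (v b) ≤ ∑ i, x (v i) := by
        have h3 : ∑ i ∈ ({a, b} : Finset (Fin k)), x (v i) ≤ ∑ i, x (v i) :=
          Finset.sum_le_sum_of_subset_of_nonneg (Finset.subset_univ _) fun i _ _ => hF.x0 _
        rwa [Finset.sum_pair hab] at h3
      have h4 := hdx' _ ha'
      have h5 := hdx' _ hb'
      have h6 : (J.card : ℝ) ≤ k := by
        have := Finset.card_le_univ J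
        rw [Fintype.card_fin] at this
        exact_mod_cast this
      have h7 : d * k * J.card ≤ d * k * k := mul_le_mul_of_nonneg_left h6 (by positivity)
      have h8 : d * k ^ 2 ≤ ∑ i, x (v i) - k := by
        nlinarith
      have h9 : 0 ≤ d * ∑ i, x (v i) := mul_nonneg hd0.le (Finset.sum_nonneg fun i _ => hF.x0 _)
      nlinarith

end Pool.Agent.Q121.XU
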